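import Pool.Agent.W5h90.SP.Spec
import Pool.Agent.W5h90.TR.Loc

/-!
# Trees with linear representations which are faithful on the edge stabilizers

Owner helper90.
-/

set_option autoImplicit false

namespace Pool.Agent.W5h90.SP

open Matrix
open Pool.Agent.Y110.FJ (ClosedE)
open Pool.Agent.R684.FP (FbC)

variable {C : ∀ (G : Type) [Group G], Prop}

/-- no infinite descending chain of subgroups of `M`, normal in the first one, with successive
quotients which are not torsion groups -/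
def Short {G : Type} [Group G] (M : Subgroup G) : Prop :=
  ∀ K : ℕ → Subgroup G, K 0 ≤ M → (∀ i, K (i + 1) ≤ K i) →
    (∀ i, ∀ x ∈ K 0, ∀ y ∈ K i, x * y * x⁻¹ ∈ K i) →
    ∃ i, ∀ x ∈ K i, ∃ n : ℕ, 0 < n ∧ x ^ n ∈ K (i + 1)

theorem Short.comap {G H : Type} [Group G] [Group H] (f : H →* G) (hf : Function.Injective f)
    {M : Subgroup G} (hM : Short M) : Short (M.comap f) := by
  intro K h0 h1 h2
  obtain ⟨i, hi⟩ := hM (fun i => (K i).map f) (Subgroup.map_le_iff_le_comap.2 h0)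
    (fun i => Subgroup.map_mono (h1 i)) (by
      rintro i _ ⟨x, hx, rfl⟩ _ ⟨y, hy, rfl⟩
      exact ⟨x * y * x⁻¹, h2 i x hx y hy, by rw [map_mul, map_mul, map_inv]⟩)
  refine ⟨i, fun x hx => ?_⟩
  obtain ⟨n, hn, y, hy, hxy⟩ := hi (f x) ⟨x, hx, rfl⟩
  refine ⟨n, hn, ?_⟩
  rw [← map_pow] at hxy
  rw [← hf hxy]
  exact hy

theorem gl_map_inj {A B : Type} [CommRing A] [CommRing B] {n : ℕ} (f : A →+* B)
    (hf : Function.Injective f) :
    Function.Injective (GeneralLinearGroup.map (n := Fin n) f) := by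
  intro g h hgh
  apply Units.ext
  ext i j
  apply hf
  have h1 := congrArg (fun x : GL (Fin n) B => x i j) hgh
  exact h1

/-- a representation of a finitely generated group is defined over a finitely generated algebra -/
theorem exists_ring {L : Type} [Field L] [Algebra ℚ L] {n : ℕ} {H : Type} [Group H]
    (hfg : Group.FG H) (ρ : H →* GL (Fin n) L) :
    ∃ (A : Subalgebra ℚ L) (f0 : H →* GL (Fin n) A), Algebra.FiniteType ℚ A ∧
      ∀ h, GeneralLinearGroup.map (A.val : A →+* L) (f0 h) = ρ h := by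
  classical
  obtain ⟨S, hS⟩ := hfg.out
  obtain ⟨E, hE⟩ : ∃ E : Finset L, ∀ h ∈ S, ∀ i j, ρ h i j ∈ E ∧ (ρ h)⁻¹ i j ∈ E := by
    refine ⟨S.biUnion fun h => Finset.univ.biUnion fun p : Fin n × Fin n =>
      {ρ h p.1 p.2, (ρ h)⁻¹ p.1 p.2}, fun g hg i j => ⟨?_, ?_⟩⟩
    · refine Finset.mem_biUnion.2 ⟨g, hg, Finset.mem_biUnion.2 ⟨(i, j), Finset.mem_univ _, ?_⟩⟩
      simp
    · refine Finset.mem_biUnion.2 ⟨g, hg, Finset.mem_biUnion.2 ⟨(i, j), Finset.mem_univ _, ?_⟩⟩
      simp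
  obtain ⟨A, hA⟩ : ∃ A : Subalgebra ℚ L, A = Algebra.adjoin ℚ (E : Set L) := ⟨_, rfl⟩
  have hEA : ∀ a ∈ E, a ∈ A := fun a ha => by
    rw [hA]
    exact Algebra.subset_adjoin ha
  have hft : Algebra.FiniteType ℚ A := by
    rw [← Subalgebra.fg_iff_finiteType, hA]
    exact Subalgebra.fg_adjoin_finset E
  obtain ⟨ψ, hψ⟩ : ∃ ψ : GL (Fin n) A →* GL (Fin n) L,
      ψ = GeneralLinearGroup.map (A.val : A →+* L) := ⟨_, rfl⟩
  have hψi : Function.Injective ψ := by
    rw [hψ]
    exact gl_map_inj _ Subtype.val_injective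
  have hψv : ∀ (g : GL (Fin n) A) i j, ψ g i j = ((g i j : A) : L) := by
    intro g i j
    rw [hψ]
    rfl
  have hrange : ∀ h : H, ρ h ∈ ψ.range := by
    have hle : (⊤ : Subgroup H) ≤ ψ.range.comap ρ := by
      rw [← hS, Subgroup.closure_le]
      intro x hx
      show ρ x ∈ ψ.range
      have hg' := hE x hx
      obtain ⟨g, hg⟩ : ∃ g, g = ρ x := ⟨_, rfl⟩
      rw [← hg] at hg' ⊢
      obtain ⟨m, hm⟩ : ∃ m : Matrix (Fin n) (Fin n) A, ∀ i j, ((m i j : A) : L) = g i j :=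
        ⟨fun i j => ⟨g i j, hEA _ (hg' i j).1⟩, fun i j => rfl⟩
      obtain ⟨m', hm'⟩ : ∃ m : Matrix (Fin n) (Fin n) A, ∀ i j, ((m i j : A) : L) = g⁻¹ i j :=
        ⟨fun i j => ⟨g⁻¹ i j, hEA _ (hg' i j).2⟩, fun i j => rfl⟩
      have e1 : m * m' = 1 := by
        ext i j
        have h1 : ((g * g⁻¹ : GL (Fin n) L) i j) = (1 : GL (Fin n) L) i j := by
          rw [mul_inv_cancel]
        rw [mul_apply, AddSubmonoidClass.coe_finsetSum]
        have h2 : (g * g⁻¹ : GL (Fin n) L) i j = ∑ l, g i l * g⁻¹ l j := by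
          show (g * g⁻¹ : GL (Fin n) L).1 i j = _
          rw [Units.val_mul, mul_apply]
        rw [h2] at h1
        have h3 : ∀ l, ((m i l * m' l j : A) : L) = g i l * g⁻¹ l j := fun l => by
          rw [← hm, ← hm']
          rfl
        rw [Finset.sum_congr rfl fun l _ => h3 l, h1]
        show (1 : Matrix (Fin n) (Fin n) L) i j = _
        rw [one_apply, one_apply]
        split_ifs <;> rfl
      have e2 : m' * m = 1 := mul_eq_one_comm.1 e1
      refine ⟨⟨m, m', e1, e2⟩, ?_⟩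
      apply Units.ext
      ext i j
      show ψ ⟨m, m', e1, e2⟩ i j = g i j
      rw [hψv]
      exact hm i j
    exact fun h => hle (Subgroup.mem_top h)
  refine ⟨A, (MonoidHom.ofInjective hψi).symm.toMonoidHom.comp
    (ρ.codRestrict ψ.range hrange), hft, fun h => ?_⟩
  have h1 := (MonoidHom.ofInjective hψi).apply_symm_apply (ρ.codRestrict ψ.range hrange h)
  have h2 := congrArg Subtype.val h1
  rw [← hψ]
  exact h2

section chain

variable {A : Type} [CommRing A] [IsDomain A] [Algebra ℚ A] [Algebra.FiniteType ℚ A]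

/-- finitely many specializations detect a short subgroup -/
theorem detect_short {n : ℕ} {H : Type} [Group H] (f0 : H →* GL (Fin n) A) (M : Subgroup H)
    (hM : Short M) (hinj : ∀ h ∈ M, f0 h = 1 → h = 1) :
    ∃ s : Finset (MaximalSpectrum A), ∀ h ∈ M,
      (∀ I ∈ s, GeneralLinearGroup.map (Ideal.Quotient.mk I.asIdeal) (f0 h) = 1) → h = 1 := by
  classical
  by_contra hcon
  push Not at hcon
  obtain ⟨I0⟩ : Nonempty (MaximalSpectrum A) := inferInstance
  obtain ⟨K, hK⟩ : ∃ K : Finset (MaximalSpectrum A) → Subgroup H, ∀ s h, h ∈ K s ↔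
      h ∈ M ∧ ∀ I ∈ s, GeneralLinearGroup.map (Ideal.Quotient.mk I.asIdeal) (f0 h) = 1 := by
    refine ⟨fun s =>
      { carrier := {h | h ∈ M ∧
          ∀ I ∈ s, GeneralLinearGroup.map (Ideal.Quotient.mk I.asIdeal) (f0 h) = 1}
        one_mem' := ⟨M.one_mem, fun I _ => by rw [map_one, map_one]⟩
        mul_mem' := fun {a b} ha hb => ⟨M.mul_mem ha.1 hb.1, fun I hI => by
          rw [map_mul, map_mul, ha.2 I hI, hb.2 I hI, mul_one]⟩
        inv_mem' := fun {a} ha => ⟨M.inv_mem ha.1, fun I hI => by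
          rw [map_inv, map_inv, ha.2 I hI, inv_one]⟩ }, fun s h => Iff.rfl⟩
  have hmono : ∀ s t : Finset (MaximalSpectrum A), s ⊆ t → K t ≤ K s := by
    intro s t hst h hh
    rw [hK] at hh ⊢
    exact ⟨hh.1, fun I hI => hh.2 I (hst hI)⟩
  have step : ∀ s : Finset (MaximalSpectrum A), I0 ∈ s → ∃ I, ∃ x ∈ K s, ∀ j : ℕ, 0 < j →
      x ^ j ∉ K (insert I s) := by
    intro s hs
    obtain ⟨h, hhM, hh, hh1⟩ := hcon s
    have hinf : ∀ j : ℕ, 0 < j → (f0 h) ^ j ≠ 1 := by
      intro j hj hj1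
      apply hh1
      refine hinj h hhM ?_
      exact ker_torsionfree I0.asIdeal I0.isMaximal (f0 h) hj hj1 (hh I0 hs)
    obtain ⟨I, hI, hIj⟩ := inf_order (f0 h) hinf
    refine ⟨⟨I, hI⟩, h, (hK _ _).2 ⟨hhM, hh⟩, fun j hj hmem => ?_⟩
    have h1 := ((hK _ _).1 hmem).2 ⟨I, hI⟩ (Finset.mem_insert_self _ _)
    rw [map_pow, map_pow] at h1
    exact hIj j hj h1
  choose! c x hx hxj using step
  obtain ⟨s, hs0, hs1⟩ : ∃ s : ℕ → Finset (MaximalSpectrum A), s 0 = {I0} ∧
      ∀ i, s (i + 1) = insert (c (s i)) (s i) :=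
    ⟨fun i => Nat.rec {I0} (fun _ t => insert (c t) t) i, rfl, fun i => rfl⟩
  have hsI : ∀ i, I0 ∈ s i := by
    intro i
    induction i with
    | zero =>
      rw [hs0]
      exact Finset.mem_singleton_self _
    | succ i ih =>
      rw [hs1]
      exact Finset.mem_insert_of_mem ih
  obtain ⟨i, hi⟩ := hM (fun i => K (s i)) (fun h hh => ((hK _ _).1 hh).1)
    (fun i => hmono _ _ (by rw [hs1]; exact Finset.subset_insert _ _)) (by
      intro i a ha b hb
      have ha' := (hK _ _).1 ha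
      have hb' := (hK _ _).1 hb
      rw [hK]
      refine ⟨M.mul_mem (M.mul_mem ha'.1 hb'.1) (M.inv_mem ha'.1), fun I hI => ?_⟩
      rw [map_mul, map_mul, map_mul, map_mul, hb'.2 I hI, mul_one, map_inv, map_inv,
        mul_inv_cancel])
  obtain ⟨j, hj, hj1⟩ := hi (x (s i)) (hx (s i) (hsI i))
  rw [hs1] at hj1
  exact hxj (s i) (hsI i) j hj hj1

end chain

/-- **trees with a representation which is faithful on the edge stabilizers** -/
theorem main_lin (hC : ClosedE C) (hF : FbC C)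
    (hk : ∀ (F : Type) [Field F] [Algebra ℚ F] [FiniteDimensional ℚ F] (n : ℕ), C (GL (Fin n) F))
    {G V : Type} [Group G] [MulAction G V] {T : SimpleGraph V} (hT : T.IsTree)
    (hadj : ∀ (g : G) (u w : V), T.Adj u w → T.Adj (g • u) (g • w))
    (hv : ∀ v : V, C (MulAction.stabilizer G v))
    {L : Type} [Field L] [CharZero L] {n : ℕ} (ρ : G →* GL (Fin n) L)
    (hρ : ∀ (u w : V) (g : G), T.Adj u w → g • u = u → g • w = w → ρ g = 1 → g = 1)
    (hs : ∀ u w : V, T.Adj u w → Short (MulAction.stabilizer G u ⊓ MulAction.stabilizer G w)) :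
    C G := by
  classical
  refine TR.main hC hF hT hadj hv fun H hH u w huw => ?_
  obtain ⟨A, f0, hft, hf0⟩ := exists_ring ((Group.fg_iff_subgroup_fg H).2 hH) (ρ.comp H.subtype)
  obtain ⟨s, hs'⟩ := detect_short f0
    ((MulAction.stabilizer G u ⊓ MulAction.stabilizer G w).comap H.subtype)
    ((hs u w huw).comap H.subtype Subtype.val_injective) (by
      intro h hh h1
      have h2 := hf0 h
      rw [h1, map_one] at h2
      exact Subtype.ext (hρ u w (h : G) huw hh.1 hh.2 h2.symm))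
  obtain ⟨P, iP, F, hP, hFP⟩ := TR.fin_det hC
    (fun I : MaximalSpectrum A => GL (Fin n) (A ⧸ I.asIdeal))
    (fun I => (GeneralLinearGroup.map (Ideal.Quotient.mk I.asIdeal)).comp f0)
    (fun I => by
      let _ : Field (A ⧸ I.asIdeal) := @Ideal.Quotient.field A _ I.asIdeal I.isMaximal
      have : FiniteDimensional ℚ (A ⧸ I.asIdeal) :=
        finite_of_finite_type_of_isJacobsonRing ℚ (A ⧸ I.asIdeal)
      exact hk (A ⧸ I.asIdeal) n) s
  exact ⟨P, iP, F, hP, fun h h1 h2 h3 => hs' h ⟨h1, h2⟩ fun I hI => hFP h h3 I hI⟩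

end Pool.Agent.W5h90.SP
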