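import Pool.Agent.W5h90.SP.Det

/-!
# Trees with residually detected edge stabilizers

Owner helper90.
-/

set_option autoImplicit false

namespace Pool.Agent.W5h90.SP

open Matrix
open Pool.Agent.Y110.FJ (ClosedE)
open Pool.Agent.R684.FP (FbC)

variable {C : ∀ (G : Type) [Group G], Prop}

/-- `f h` is nontrivial, and of infinite order if `h` is of infinite order -/
def Keeps {H P : Type} [Group H] [Group P] (f : H →* P) (h : H) : Prop :=
  f h ≠ 1 ∧ ((∀ n : ℕ, 0 < n → h ^ n ≠ 1) → ∀ n : ℕ, 0 < n → f h ^ n ≠ 1)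

theorem nf (hL : ∀ (F : Type) [Field F] [NumberField F] (n : ℕ), C (GL (Fin n) F))
    (F : Type) [Field F] [a : Algebra ℚ F] [FiniteDimensional ℚ F] (n : ℕ) : C (GL (Fin n) F) := by
  have hch : CharZero F := algebraRat.charZero F
  have h : a = DivisionRing.toRatAlgebra := Subsingleton.elim _ _
  subst h
  have : NumberField F := NumberField.mk
  exact hL F n

/-- linear representations can be replaced by homomorphisms to groups in the class -/
theorem keeps_of_lin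
    (hk : ∀ (F : Type) [Field F] [Algebra ℚ F] [FiniteDimensional ℚ F] (n : ℕ), C (GL (Fin n) F))
    {H : Type} [Group H] (hfg : Group.FG H) {h : H}
    {L : Type} [Field L] [CharZero L] {n : ℕ} (ρ : H →* GL (Fin n) L) (hρ : Keeps ρ h) :
    ∃ (P : Type) (_ : Group P) (f : H →* P), C P ∧ Keeps f h := by
  obtain ⟨A, f0, hft, hf0⟩ := exists_ring hfg ρ
  have hfield : ∀ I : MaximalSpectrum A, C (GL (Fin n) (A ⧸ I.asIdeal)) := fun I => by
    let _ : Field (A ⧸ I.asIdeal) := @Ideal.Quotient.field A _ I.asIdeal I.isMaximal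
    have : FiniteDimensional ℚ (A ⧸ I.asIdeal) :=
      finite_of_finite_type_of_isJacobsonRing ℚ (A ⧸ I.asIdeal)
    exact hk (A ⧸ I.asIdeal) n
  have hne : f0 h ≠ 1 := by
    intro h1
    have h2 := hf0 h
    rw [h1, map_one] at h2
    exact hρ.1 h2.symm
  by_cases hinf : ∀ m : ℕ, 0 < m → (f0 h) ^ m ≠ 1
  · obtain ⟨I, hI, hIj⟩ := inf_order (f0 h) hinf
    refine ⟨_, _, (GeneralLinearGroup.map (Ideal.Quotient.mk I)).comp f0, hfield ⟨I, hI⟩, ?_, ?_⟩
    · intro h1
      have h2 := hIj 1 one_pos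
      rw [pow_one] at h2
      exact h2 h1
    · exact fun _ m hm => hIj m hm
  · push Not at hinf
    obtain ⟨r, hr, hr1⟩ := hinf
    obtain ⟨I⟩ : Nonempty (MaximalSpectrum A) := inferInstance
    refine ⟨_, _, (GeneralLinearGroup.map (Ideal.Quotient.mk I.asIdeal)).comp f0, hfield I, ?_, ?_⟩
    · intro h1
      exact hne (ker_torsionfree I.asIdeal I.isMaximal (f0 h) hr hr1 h1)
    · intro h1 
      exfalso
      have h2 := hρ.2 h1 r hr
      rw [← hf0 h, ← map_pow, hr1, map_one] at h2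
      exact h2 rfl

/-- finitely many homomorphisms detect a short subgroup -/
theorem detect_res {H : Type} [Group H] (M : Subgroup H) (hM : Short M)
    (hfin : ∀ K : Subgroup H, K ≤ M → (∀ x ∈ K, ∃ n : ℕ, 0 < n ∧ x ^ n = 1) → Finite K)
    (P : {h : H // h ∈ M ∧ h ≠ 1} → Type) [∀ h, Group (P h)]
    (f : ∀ h : {h : H // h ∈ M ∧ h ≠ 1}, H →* P h) (hf : ∀ h, Keeps (f h) h.1) :
    ∃ s : Finset {h : H // h ∈ M ∧ h ≠ 1}, ∀ h ∈ M, (∀ i ∈ s, f i h = 1) → h = 1 := by
  classical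
  obtain ⟨K, hK⟩ : ∃ K : Finset {h : H // h ∈ M ∧ h ≠ 1} → Subgroup H, ∀ s h, h ∈ K s ↔
      h ∈ M ∧ ∀ i ∈ s, f i h = 1 := by
    refine ⟨fun s =>
      { carrier := {h | h ∈ M ∧ ∀ i ∈ s, f i h = 1}
        one_mem' := ⟨M.one_mem, fun I _ => by rw [map_one]⟩
        mul_mem' := fun {a b} ha hb => ⟨M.mul_mem ha.1 hb.1, fun I hI => by
          rw [map_mul, ha.2 I hI, hb.2 I hI, mul_one]⟩
        inv_mem' := fun {a} ha => ⟨M.inv_mem ha.1, fun I hI => by
          rw [map_inv, ha.2 I hI, inv_one]⟩ }, fun s h => Iff.rfl⟩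
  have hmono : ∀ s t : Finset {h : H // h ∈ M ∧ h ≠ 1}, s ⊆ t → K t ≤ K s := by
    intro s t hst h hh
    rw [hK] at hh ⊢
    exact ⟨hh.1, fun I hI => hh.2 I (hst hI)⟩
  obtain ⟨s, hs⟩ : ∃ s, ∀ x ∈ K s, ∃ n : ℕ, 0 < n ∧ x ^ n = 1 := by
    by_contra hcon
    push Not at hcon
    choose x hx hxn using hcon
    have hx1 : ∀ s, x s ≠ 1 := by
      intro s h
      have := hxn s 1 one_pos
      rw [pow_one] at this
      exact this h
    obtain ⟨c, hc⟩ : ∃ c : Finset {h : H // h ∈ M ∧ h ≠ 1} → {h : H // h ∈ M ∧ h ≠ 1},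
        ∀ s, (c s).1 = x s := ⟨fun s => ⟨x s, ((hK _ _).1 (hx s)).1, hx1 s⟩, fun s => rfl⟩
    obtain ⟨s, hs1⟩ : ∃ s : ℕ → Finset {h : H // h ∈ M ∧ h ≠ 1}, ∀ i, s (i + 1)
        = insert (c (s i)) (s i) :=
      ⟨fun i => Nat.rec ∅ (fun _ t => insert (c t) t) i, fun i => rfl⟩
    obtain ⟨i, hi⟩ := hM (fun i => K (s i)) (fun h hh => ((hK _ _).1 hh).1)
      (fun i => hmono _ _ (by rw [hs1]; exact Finset.subset_insert _ _)) (by
        intro i a ha b hb
        have ha' := (hK _ _).1 ha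
        have hb' := (hK _ _).1 hb
        rw [hK]
        refine ⟨M.mul_mem (M.mul_mem ha'.1 hb'.1) (M.inv_mem ha'.1), fun I hI => ?_⟩
        rw [map_mul, map_mul, hb'.2 I hI, mul_one, map_inv, mul_inv_cancel])
    obtain ⟨j, hj, hj1⟩ := hi (x (s i)) (hx (s i))
    have h1 := ((hK _ _).1 hj1).2 (c (s i)) (by rw [hs1]; exact Finset.mem_insert_self _ _)
    rw [map_pow] at h1
    refine (hf (c (s i))).2 ?_ j hj ?_
    · rw [hc]
      exact hxn (s i)
    · rw [hc]
      exact h1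
  have hKf : Finite (K s) := hfin (K s) (fun h hh => ((hK _ _).1 hh).1) hs
  obtain ⟨t, ht⟩ : ∃ t : Finset {h : H // h ∈ M ∧ h ≠ 1}, ∀ h, h ∈ t ↔ h.1 ∈ K s := by
    have h1 : {h : {h : H // h ∈ M ∧ h ≠ 1} | h.1 ∈ K s}.Finite := by
      refine Set.Finite.of_injOn (f := Subtype.val) (t := (K s : Set H)) (fun h hh => hh)
        Subtype.val_injective.injOn ?_
      exact Set.toFinite _
    exact ⟨h1.toFinset, fun h => by rw [Set.Finite.mem_toFinset]; rfl⟩
  refine ⟨s ∪ t, fun h hh hst => ?_⟩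
  by_contra h1
  have h2 : h ∈ K s := (hK _ _).2 ⟨hh, fun i hi => hst i (Finset.mem_union_left _ hi)⟩
  have h3 : (⟨h, hh, h1⟩ : {h : H // h ∈ M ∧ h ≠ 1}) ∈ t := (ht _).2 h2
  exact (hf ⟨h, hh, h1⟩).1 (hst _ (Finset.mem_union_right _ h3))

/-- **trees with residually detected edge stabilizers** -/
theorem main_res (hC : ClosedE C) (hF : FbC C)
    (hk : ∀ (F : Type) [Field F] [NumberField F] (n : ℕ), C (GL (Fin n) F))
    {G V : Type} [Group G] [MulAction G V] {T : SimpleGraph V} (hT : T.IsTree)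
    (hadj : ∀ (g : G) (u w : V), T.Adj u w → T.Adj (g • u) (g • w))
    (hv : ∀ v : V, C (MulAction.stabilizer G v))
    (hs : ∀ u w : V, T.Adj u w → Short (MulAction.stabilizer G u ⊓ MulAction.stabilizer G w))
    (htor : ∀ u w : V, T.Adj u w → ∀ K : Subgroup G,
      K ≤ MulAction.stabilizer G u ⊓ MulAction.stabilizer G w →
      (∀ x ∈ K, ∃ n : ℕ, 0 < n ∧ x ^ n = 1) → Finite K)
    (hres : ∀ H : Subgroup G, H.FG → ∀ u w : V, T.Adj u w → ∀ h : H, h • u = u → h • w = w →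
      h ≠ 1 → (∃ (P : Type) (_ : Group P) (f : H →* P), C P ∧ Keeps f h) ∨
        ∃ (L : Type) (_ : Field L) (_ : CharZero L) (n : ℕ) (f : H →* GL (Fin n) L), Keeps f h) :
    C G := by
  classical
  refine TR.main hC hF hT hadj hv fun H hH u w huw => ?_
  have hfg : Group.FG H := (Group.fg_iff_subgroup_fg H).2 hH
  obtain ⟨M, hM⟩ : ∃ M : Subgroup H,
      M = (MulAction.stabilizer G u ⊓ MulAction.stabilizer G w).comap H.subtype := ⟨_, rfl⟩
  have key : ∀ h : {h : H // h ∈ M ∧ h ≠ 1}, ∃ (P : Type) (_ : Group P) (f : H →* P), C P ∧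
      Keeps f h.1 := by
    rintro ⟨h, hh, h1⟩
    rw [hM] at hh
    rcases hres H hH u w huw h hh.1 hh.2 h1 with h2 | ⟨L, _, _, n, f, hf⟩
    · exact h2
    · exact keeps_of_lin (fun F _ _ _ n => nf hk F n) hfg f hf
  choose P iP f hP hf using key
  obtain ⟨s, hs'⟩ := detect_res M (by
      rw [hM]
      exact (hs u w huw).comap H.subtype Subtype.val_injective) (by
      intro K hK hKt
      have h1 : Finite (K.map H.subtype) := by
        refine htor u w huw _ ?_ ?_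
        · rw [hM] at hK
          exact Subgroup.map_le_iff_le_comap.2 hK
        · rintro _ ⟨x, hx, rfl⟩
          obtain ⟨n, hn, hn1⟩ := hKt x hx
          exact ⟨n, hn, by rw [← map_pow, hn1, map_one]⟩
      exact Finite.of_equiv _ (K.equivMapOfInjective H.subtype Subtype.val_injective).symm.toEquiv)
    P f hf
  obtain ⟨Q, iQ, F, hQ, hFQ⟩ := TR.fin_det hC P f hP s
  refine ⟨Q, iQ, F, hQ, fun h h1 h2 h3 => hs' h ?_ fun i hi => hFQ h h3 i hi⟩
  rw [hM]
  exact ⟨h1, h2⟩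

end Pool.Agent.W5h90.SP
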