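import Pool.Agent.W5h90.SP.Tors

/-!
# Specializations of linear groups to number fields

Owner helper90.
-/

set_option autoImplicit false

namespace Pool.Agent.W5h90.SP

open Matrix

section points

variable (k A : Type) [Field k] [Infinite k] [CommRing A] [IsDomain A] [Algebra k A]
  [Algebra.FiniteType k A]

/-- there are points of bounded degree outside of each hypersurface -/
theorem exists_bounded_points : ∃ D : ℕ, ∀ a : A, a ≠ 0 → ∃ I : Ideal A, I.IsMaximal ∧ a ∉ I ∧
    FiniteDimensional k (A ⧸ I) ∧ Module.finrank k (A ⧸ I) ≤ D := by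
  classical
  obtain ⟨s, g, hg, hfin⟩ := exists_finite_inj_algHom_of_fg k A
  let _ : Algebra (MvPolynomial (Fin s) k) A := g.toRingHom.toAlgebra
  have hMF : Module.Finite (MvPolynomial (Fin s) k) A := hfin
  have hAM : ∀ b : MvPolynomial (Fin s) k, algebraMap (MvPolynomial (Fin s) k) A b = g b :=
    fun b => rfl
  have hgC : ∀ c : k, g (MvPolynomial.C c) = algebraMap k A c := fun c => g.commutes c
  obtain ⟨S, hS⟩ := hMF.fg_top
  refine ⟨S.card, fun a ha => ?_⟩
  have h1 : (Ideal.span {a}).comap (algebraMap (MvPolynomial (Fin s) k) A) ≠ ⊥ :=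
    Ideal.comap_ne_bot_of_integral_mem ha (Ideal.mem_span_singleton_self a)
      (Algebra.IsIntegral.isIntegral a)
  obtain ⟨b, hb, hb0⟩ := Submodule.exists_mem_ne_zero_of_ne_bot h1
  obtain ⟨x, hx⟩ : ∃ x : Fin s → k, MvPolynomial.eval x b ≠ 0 := by
    by_contra h
    push Not at h
    exact hb0 (MvPolynomial.funext fun x => by rw [h x, map_zero])
  have hmax : (RingHom.ker (MvPolynomial.eval x)).IsMaximal :=
    RingHom.ker_isMaximal_of_surjective _ fun c => ⟨MvPolynomial.C c, MvPolynomial.eval_C c⟩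
  obtain ⟨Q, hQ, hQc⟩ := Ideal.exists_ideal_over_maximal_of_isIntegral
    (S := A) (RingHom.ker (MvPolynomial.eval x)) (by
      have h2 : RingHom.ker (algebraMap (MvPolynomial (Fin s) k) A) = ⊥ :=
        (RingHom.injective_iff_ker_eq_bot _).1 hg
      rw [h2]
      exact bot_le)
  have hmem : ∀ b : MvPolynomial (Fin s) k, MvPolynomial.eval x b = 0 → g b ∈ Q := by
    intro b hb
    have h2 : b ∈ Q.comap (algebraMap (MvPolynomial (Fin s) k) A) := by
      rw [hQc]
      exact hb
    exact h2
  have hmk : ∀ (b : MvPolynomial (Fin s) k), Ideal.Quotient.mk Q (g b)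
      = algebraMap k (A ⧸ Q) (MvPolynomial.eval x b) := by
    intro b
    have h2 := hmem (b - MvPolynomial.C (MvPolynomial.eval x b)) (by
      rw [map_sub, MvPolynomial.eval_C, sub_self])
    rw [map_sub, hgC] at h2
    exact (Ideal.Quotient.eq.2 h2)
  have hspan : ∀ c : A, Ideal.Quotient.mk Q c ∈
      Submodule.span k ((S.image (Ideal.Quotient.mk Q) : Finset (A ⧸ Q)) : Set (A ⧸ Q)) := by
    intro c
    have hc : c ∈ Submodule.span (MvPolynomial (Fin s) k) (S : Set A) := by
      rw [hS]
      trivial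
    induction hc using Submodule.span_induction with
    | mem c hc =>
      refine Submodule.subset_span ?_
      rw [Finset.coe_image]
      exact ⟨c, hc, rfl⟩
    | zero =>
      rw [map_zero]
      exact Submodule.zero_mem _
    | add c d _ _ hc hd =>
      rw [map_add]
      exact Submodule.add_mem _ hc hd
    | smul b c _ hc =>
      have h2 : Ideal.Quotient.mk Q (b • c) = MvPolynomial.eval x b • Ideal.Quotient.mk Q c := by
        rw [Algebra.smul_def, hAM, map_mul, hmk, Algebra.smul_def]
      rw [h2]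
      exact Submodule.smul_mem _ _ hc
  have htop : Submodule.span k ((S.image (Ideal.Quotient.mk Q) : Finset (A ⧸ Q)) : Set (A ⧸ Q))
      = ⊤ := by
    rw [eq_top_iff]
    intro c _
    obtain ⟨c, rfl⟩ := Ideal.Quotient.mk_surjective c
    exact hspan c
  have hfd : FiniteDimensional k (A ⧸ Q) := ⟨⟨_, htop⟩⟩
  refine ⟨Q, hQ, ?_, hfd, ?_⟩
  · intro haQ
    have h2 : g b ∈ Ideal.span {a} := hb
    have h3 : g b ∈ Q := by
      have h4 : Ideal.span {a} ≤ Q := by
        rw [Ideal.span_le]
        simpa using haQ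
      exact h4 h2
    have h4 : b ∈ Q.comap (algebraMap (MvPolynomial (Fin s) k) A) := h3
    rw [hQc] at h4
    exact hx h4
  · have h2 := finrank_span_finset_le_card (R := k) (S.image (Ideal.Quotient.mk Q))
    rw [Set.finrank, htop, finrank_top] at h2
    exact h2.trans Finset.card_image_le

end points

section order

/-- the action of a matrix on a rational vector space -/
def act {F : Type} [Field F] [Algebra ℚ F] {n : ℕ} : Matrix (Fin n) (Fin n) F →*
    Module.End ℚ (Fin n → F) where
  toFun M := (Matrix.mulVecLin M).restrictScalars ℚ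
  map_one' := by
    refine LinearMap.ext fun v => ?_
    show Matrix.mulVec 1 v = v
    rw [one_mulVec]
  map_mul' M N := by
    refine LinearMap.ext fun v => ?_
    show Matrix.mulVec (M * N) v = Matrix.mulVec M (Matrix.mulVec N v)
    rw [mulVec_mulVec]

theorem act_inj {F : Type} [Field F] [Algebra ℚ F] {n : ℕ} :
    Function.Injective (act (F := F) (n := n)) := by
  intro M N h
  apply Matrix.mulVec_injective
  ext1 v
  exact congrArg (fun f : Module.End ℚ (Fin n → F) => f v) h

theorem mat_exponent {F : Type} [Field F] [Algebra ℚ F] [FiniteDimensional ℚ F] {n D : ℕ}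
    (hD : Module.finrank ℚ F ≤ D) (M : Matrix (Fin n) (Fin n) F) {j : ℕ} (hj : 0 < j)
    (h : M ^ j = 1) : M ^ (2 * (n * D)).factorial = 1 := by
  have h1 : Module.finrank ℚ (Fin n → F) ≤ n * D := by
    rw [Module.finrank_pi_fintype, Finset.sum_const, Finset.card_univ, Fintype.card_fin,
      smul_eq_mul]
    exact Nat.mul_le_mul_left _ hD
  have h2 : act M ^ j = 1 := by rw [← map_pow, h, map_one]
  have h3 := exponent h1 (act M) hj h2
  rw [← map_pow] at h3
  apply act_inj
  rw [h3, map_one]

variable {A : Type} [CommRing A] [IsDomain A] [Algebra ℚ A] [Algebra.FiniteType ℚ A]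

/-- a matrix of infinite order has a specialization of infinite order -/
theorem inf_order {n : ℕ} (m : GL (Fin n) A) (hm : ∀ j, 0 < j → m ^ j ≠ 1) :
    ∃ I : Ideal A, I.IsMaximal ∧
      ∀ j, 0 < j → (GeneralLinearGroup.map (Ideal.Quotient.mk I) m) ^ j ≠ 1 := by
  obtain ⟨D, hD⟩ := exists_bounded_points ℚ A
  obtain ⟨J, hJ⟩ : ∃ J, J = (2 * (n * D)).factorial := ⟨_, rfl⟩
  have hJ0 : 0 < J := by
    rw [hJ]
    exact Nat.factorial_pos _
  obtain ⟨i, j, hij⟩ : ∃ i j, (m ^ J).1 i j ≠ (1 : Matrix (Fin n) (Fin n) A) i j := by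
    by_contra h
    push Not at h
    apply hm J hJ0
    apply Units.ext
    ext1 i j
    rw [h i j, Units.val_one]
  obtain ⟨I, hI, hIa, hfd, hle⟩ := hD _ (sub_ne_zero.2 hij)
  refine ⟨I, hI, fun r hr h => hIa ?_⟩
  let _ : Field (A ⧸ I) := Ideal.Quotient.field I
  rw [← Ideal.Quotient.eq]
  have h1 : (GeneralLinearGroup.map (Ideal.Quotient.mk I) m).1 ^ r = 1 := by
    rw [← Units.val_pow_eq_pow_val, h, Units.val_one]
  have h2 : (GeneralLinearGroup.map (Ideal.Quotient.mk I) m).1 ^ J = 1 := by
    rw [hJ]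
    exact mat_exponent hle _ hr h1
  have h3 : (GeneralLinearGroup.map (Ideal.Quotient.mk I) (m ^ J)).1 = 1 := by
    rw [map_pow, Units.val_pow_eq_pow_val, h2]
  have h4 := congrFun (congrFun h3 i) j
  have h5 : (GeneralLinearGroup.map (Ideal.Quotient.mk I) (m ^ J)).1 i j
      = Ideal.Quotient.mk I ((m ^ J).1 i j) := rfl
  rw [h5] at h4
  rw [h4, one_apply, one_apply]
  split_ifs
  · rw [map_one]
  · rw [map_zero]

omit [Algebra.FiniteType ℚ A] in
/-- the kernel of a specialization is torsion free -/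
theorem ker_torsionfree {n : ℕ} (I : Ideal A) (hI : I.IsMaximal) (y : GL (Fin n) A) {r : ℕ}
    (hr : 0 < r) (hy : y ^ r = 1) (h : GeneralLinearGroup.map (Ideal.Quotient.mk I) y = 1) :
    y = 1 := by
  let _ : Field (A ⧸ I) := Ideal.Quotient.field I
  have hch : CharZero (A ⧸ I) := algebraRat.charZero (A ⧸ I)
  obtain ⟨S, hS⟩ : ∃ S : Matrix (Fin n) (Fin n) A, S = ∑ i ∈ Finset.range r, y.1 ^ i := ⟨_, rfl⟩
  have h1 : (y.1 - 1) * S = 0 := by
    rw [hS, mul_geom_sum, ← Units.val_pow_eq_pow_val, hy, Units.val_one, sub_self]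
  have h2 : det S ≠ 0 := by
    intro h3
    have h4 := congrArg (Ideal.Quotient.mk I) h3
    rw [RingHom.map_det, map_zero, hS, map_sum] at h4
    have h5 : (Ideal.Quotient.mk I).mapMatrix y.1 = 1 := congrArg Units.val h
    rw [Finset.sum_congr rfl fun i _ => by rw [map_pow, h5, one_pow], Finset.sum_const,
      Finset.card_range, nsmul_eq_mul, mul_one, ← Matrix.diagonal_natCast', det_diagonal] at h4
    simp only [Pi.natCast_apply, Finset.prod_const] at h4
    exact pow_ne_zero _ (Nat.cast_ne_zero.2 hr.ne') h4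
  have h3 : (det S) • (y.1 - 1) = 0 := by
    have h4 : (y.1 - 1) * S * adjugate S = 0 := by rw [h1, zero_mul]
    rw [mul_assoc, mul_adjugate, mul_smul_comm, mul_one] at h4
    exact h4
  have h4 : y.1 - 1 = 0 := by
    rcases smul_eq_zero.1 h3 with h5 | h5
    · exact absurd h5 h2
    · exact h5
  exact Units.ext (sub_eq_zero.1 h4)

end order

end Pool.Agent.W5h90.SP
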