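import Mathlib

/-!
# Automorphisms of finite order of a rational vector space

Owner helper90.
-/

set_option autoImplicit false

namespace Pool.Agent.W5h90.SP

open Polynomial

theorem prime_pow_le {V : Type} [AddCommGroup V] [Module ℚ V] [FiniteDimensional ℚ V]
    (h : Module.End ℚ V) (p k : ℕ) (hp : p.Prime) (hh : orderOf h = p ^ (k + 1)) :
    p ^ (k + 1) ≤ 2 * Module.finrank ℚ V := by
  have : Fact p.Prime := ⟨hp⟩
  have hint : IsIntegral ℚ h := Algebra.IsIntegral.isIntegral h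
  have h1 : minpoly ℚ h ∣ cyclotomic (p ^ (k + 1)) ℚ * (X ^ p ^ k - 1) := by
    rw [cyclotomic_prime_pow_mul_X_pow_sub_one]
    apply minpoly.dvd
    rw [map_sub, map_pow, aeval_X, map_one, ← hh, pow_orderOf_eq_one, sub_self]
  have hirr : Irreducible (cyclotomic (p ^ (k + 1)) ℚ) :=
    cyclotomic.irreducible_rat (pow_pos hp.pos _)
  have h2 : cyclotomic (p ^ (k + 1)) ℚ ∣ minpoly ℚ h := by
    by_contra hn
    have h3 : IsCoprime (cyclotomic (p ^ (k + 1)) ℚ) (minpoly ℚ h) :=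
      (hirr.coprime_iff_not_dvd).2 hn
    have h4 : minpoly ℚ h ∣ X ^ p ^ k - 1 := h3.symm.dvd_of_dvd_mul_left h1
    obtain ⟨q, hq⟩ := h4
    have h5 : h ^ p ^ k = 1 := by
      have h6 := congrArg (aeval h) hq
      rw [map_sub, map_pow, aeval_X, map_one, map_mul, minpoly.aeval, zero_mul, sub_eq_zero] at h6
      exact h6
    have h6 := orderOf_dvd_of_pow_eq_one h5
    rw [hh] at h6
    have h7 := Nat.le_of_dvd (pow_pos hp.pos _) h6
    have h8 : p ^ k < p ^ (k + 1) := Nat.pow_lt_pow_right hp.one_lt (Nat.lt_succ_self k)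
    omega
  have h3 := natDegree_le_of_dvd h2 (minpoly.ne_zero hint)
  rw [natDegree_cyclotomic, Nat.totient_prime_pow_succ hp] at h3
  have h4 : (minpoly ℚ h).natDegree ≤ Module.finrank ℚ V := by
    rw [← LinearMap.charpoly_natDegree h]
    exact natDegree_le_of_dvd (LinearMap.minpoly_dvd_charpoly h) (LinearMap.charpoly_monic h).ne_zero
  have h5 : p ^ (k + 1) ≤ 2 * (p ^ k * (p - 1)) := by
    have h6 : p ≤ 2 * (p - 1) := by
      have := hp.two_le
      omega
    calc p ^ (k + 1) = p ^ k * p := pow_succ p k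
      _ ≤ p ^ k * (2 * (p - 1)) := Nat.mul_le_mul_left _ h6
      _ = 2 * (p ^ k * (p - 1)) := by ring
  omega

/-- the exponent of the automorphisms of finite order -/
theorem exponent {V : Type} [AddCommGroup V] [Module ℚ V] [FiniteDimensional ℚ V] {N : ℕ}
    (hN : Module.finrank ℚ V ≤ N) (f : Module.End ℚ V) {j : ℕ} (hj : 0 < j) (hf : f ^ j = 1) :
    f ^ (2 * N).factorial = 1 := by
  rw [← orderOf_dvd_iff_pow_eq_one]
  have hpos : 0 < orderOf f := orderOf_pos_iff.2 (isOfFinOrder_iff_pow_eq_one.2 ⟨j, hj, hf⟩)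
  rw [Nat.dvd_iff_prime_pow_dvd_dvd]
  intro p k hp hk
  rcases k with - | k
  · rw [pow_zero]
    exact one_dvd _
  refine Nat.dvd_factorial (pow_pos hp.pos _) ?_
  obtain ⟨c, hc⟩ := hk
  have hc0 : 0 < c := Nat.pos_of_ne_zero fun h => by
    rw [h, mul_zero] at hc
    omega
  have h1 : orderOf (f ^ c) = p ^ (k + 1) := by
    rw [orderOf_pow_of_dvd hc0.ne' ⟨p ^ (k + 1), by rw [hc, mul_comm]⟩, hc,
      Nat.mul_div_cancel _ hc0]
  have h2 := prime_pow_le (f ^ c) p k hp h1
  omega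

end Pool.Agent.W5h90.SP
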